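import Pool.Agent.Y197.LR.Stm

/-!
Project LR (helper197), part ITER (helper550): iteration over blocks.
-/

set_option autoImplicit false

namespace Pool.Agent.Y550.LR.Iter

open H974 Finset
open Pool.Agent.Y197.LR

theorem mem_SE {n a b : ℤ} {e : Edg} : e ∈ SE n a b ↔ a ≤ e.1 ∧ e.1 < b ∧ InS n e := by
  obtain ⟨x, y, _ | _⟩ := e
  · unfold SE InS
    rw [Finset.mem_filter, mem_RE_false]
    simp only [tgt_false]
    omega
  · unfold SE InS
    rw [Finset.mem_filter, mem_RE_true]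
    simp only [tgt_true]
    omega

theorem InS_trl (n s : ℤ) (e : Edg) : InS n ((trl s 0).φ e) ↔ InS n e := by
  obtain ⟨x, y, _ | _⟩ := e
  · unfold InS
    simp only [trl_φ, tgt_false]
    omega
  · unfold InS
    simp only [trl_φ, tgt_true]
    omega

theorem InS_trls (n s : ℤ) (e : Edg) : InS n ((trl s 0).φ.symm e) ↔ InS n e := by
  rw [← InS_trl n s, Equiv.apply_symm_apply]

theorem φ1 (s : ℤ) (e : Edg) : ((trl s 0).φ e).1 = e.1 + s := rfl
theorem φs1 (s : ℤ) (e : Edg) : ((trl s 0).φ.symm e).1 = e.1 - s := rfl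
theorem ψ1 (s : ℤ) (v : Vtx) : ((trl s 0).ψ v).1 = v.1 + s := rfl
theorem ψ2 (s : ℤ) (v : Vtx) : ((trl s 0).ψ v).2 = v.2 + 0 := rfl

theorem SE_trl (n a b s : ℤ) : (trl s 0).mp (SE n a b) = SE n (a + s) (b + s) := by
  ext e
  rw [LSym.mem_mp, mem_SE, mem_SE, InS_trls, φs1]
  constructor
  · rintro ⟨h1, h2, h3⟩
    exact ⟨by omega, by omega, h3⟩
  · rintro ⟨h1, h2, h3⟩
    exact ⟨by omega, by omega, h3⟩

theorem mp_union (g : LSym) (A B : Finset Edg) : g.mp (A ∪ B) = g.mp A ∪ g.mp B := by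
  ext e
  simp only [LSym.mem_mp, Finset.mem_union]

theorem Cn_mp (g : LSym) (S T : Set Vtx) (G : Finset Edg) :
    Cn (g.ψ '' S) (g.ψ '' T) (g.mp G) ↔ Cn S T G := by
  unfold Cn
  constructor
  · rintro ⟨_, ⟨s, hs, rfl⟩, _, ⟨t, ht, rfl⟩, h⟩
    rw [LSym.coe_mp, LSym.reach_iff] at h
    exact ⟨s, hs, t, ht, h⟩
  · rintro ⟨s, hs, t, ht, h⟩
    refine ⟨_, ⟨s, hs, rfl⟩, _, ⟨t, ht, rfl⟩, ?_⟩
    rw [LSym.coe_mp, LSym.reach_iff]
    exact h

theorem U_mp (g : LSym) (E : Finset Edg) (T S : Set Vtx) (G : Finset Edg) :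
    U (g.mp E) (g.ψ '' T) (g.ψ '' S) (g.mp G) = U E T S G := by
  unfold U
  refine (LSym.pr g (1 / 2) E _).trans ?_
  refine Pr_congr fun F _ => ?_
  rw [← mp_union, Cn_mp]

theorem SE_union {n a b c : ℤ} (hab : a ≤ b) (hbc : b ≤ c) : SE n a b ∪ SE n b c = SE n a c := by
  ext e
  rw [Finset.mem_union, mem_SE, mem_SE, mem_SE]
  constructor
  · rintro (⟨h1, h2, h3⟩ | ⟨h1, h2, h3⟩)
    · exact ⟨h1, by omega, h3⟩
    · exact ⟨by omega, h2, h3⟩
  · rintro ⟨h1, h2, h3⟩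
    rcases lt_or_ge e.1 b with h | h
    · exact Or.inl ⟨h1, h, h3⟩
    · exact Or.inr ⟨h, h2, h3⟩

theorem LS_trl {n c : ℤ} {E : Finset Edg} {T : Set Vtx} (hc : n ≤ c) (hc0 : 0 ≤ c)
    (h : LS n 0 E T) :
    LS n 0 ((trl (-c) 0).mp (E ∪ SE n 0 c)) ((trl (-c) 0).ψ '' T) := by
  refine ⟨?_, ?_, ?_⟩
  · intro e he
    rw [LSym.mem_mp, Finset.mem_union] at he
    rcases he with he | he
    · have h1 := h.lt _ he
      rw [φs1, InS_trls] at h1
      exact ⟨by omega, h1.2⟩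
    · rw [mem_SE, φs1, InS_trls] at he
      exact ⟨by omega, he.2.2⟩
  · intro e he
    rw [mem_SE] at he
    rw [LSym.mem_mp, Finset.mem_union]
    right
    rw [mem_SE, φs1, InS_trls]
    exact ⟨by omega, by omega, he.2.2⟩
  · rintro _ ⟨t, ht, rfl⟩
    have h1 := h.tgt t ht
    rw [ψ1, ψ2]
    omega

theorem RtV_pre {n c c' : ℤ} {S : Set Vtx} (h : RtV n c' S) : RtV n (c' + c)
    ((trl (-c) 0).ψ ⁻¹' S) := by
  intro s hs
  have h1 := h _ hs
  rw [ψ1, ψ2] at h1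
  omega

theorem RtV_im {n c c' : ℤ} {S : Set Vtx} (h : RtV n (c + c') S) :
    RtV n c' ((trl (-c) 0).ψ '' S) := by
  rintro _ ⟨s, hs, rfl⟩
  have h1 := h s hs
  rw [ψ1, ψ2]
  omega

theorem Rt_im {n c c' : ℤ} {G : Finset Edg} (h : Rt n (c + c') G) :
    Rt n c' ((trl (-c) 0).mp G) := by
  intro e he
  rw [LSym.mem_mp] at he
  have h1 := h _ he
  rw [φs1, InS_trls] at h1
  exact ⟨by omega, h1.2⟩

theorem Rt_pre {n c c' : ℤ} {G : Finset Edg} (h : Rt n c' G) :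
    Rt n (c' + c) ((trl (-c) 0).inv.mp G) := by
  intro e he
  rw [LSym.mem_mp] at he
  have h1 := h ((trl (-c) 0).φ e) he
  rw [φ1, InS_trl] at h1
  exact ⟨by omega, h1.2⟩

theorem mp_inv (g : LSym) (G : Finset Edg) : g.mp (g.inv.mp G) = G := by
  ext e
  rw [LSym.mem_mp, LSym.mem_mp]
  change g.φ (g.φ.symm e) ∈ G ↔ e ∈ G
  rw [Equiv.apply_symm_apply]

theorem main (h : S_STEP) : S_ITER := by
  obtain ⟨d, hd0, hd1, h⟩ := h
  refine ⟨d, hd0, hd1, ?_⟩
  intro n E E' T T' hn hE hE' hb hb'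
  obtain ⟨m0, M0, hm0, hmM0, hM0, hin0⟩ := (h n E E' T T' hn hE hE').1 hb hb'
  have hN : 0 < N n := by unfold N; omega
  have hNn : n ≤ N n := by unfold N; omega
  have key : ∀ k : ℕ, ∃ m M : ℝ, m0 ≤ m ∧ m ≤ M ∧ M - m ≤ (1 - d) ^ k * ((1 / d - 1) * m0) ∧
      ∀ (S : Set Vtx) (F : Finset Edg), RtV n ((k + 1) * N n) S → Rt n ((k + 1) * N n) F →
        m * U (E ∪ SE n 0 ((k + 1) * N n)) T S F ≤ U (E' ∪ SE n 0 ((k + 1) * N n)) T' S F ∧
        U (E' ∪ SE n 0 ((k + 1) * N n)) T' S F ≤ M * U (E ∪ SE n 0 ((k + 1) * N n)) T S F := by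
    intro k
    induction k with
    | zero =>
      refine ⟨m0, M0, le_rfl, hmM0, ?_, ?_⟩
      · rw [pow_zero, one_mul]
        have : (1 / d - 1) * m0 = m0 / d - m0 := by ring
        rw [this]
        linarith
      · have e : (((0 : ℕ) : ℤ) + 1) * N n = N n := by push_cast; ring
        rw [e]
        exact hin0
    | succ k ih =>
      obtain ⟨m, M, i1, i2, i3, i4⟩ := ih
      obtain ⟨c, hc⟩ : ∃ c : ℤ, c = ((k : ℤ) + 1) * N n := ⟨_, rfl⟩
      rw [← hc] at i4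
      have hcN : N n ≤ c := by
        rw [hc]
        have : (0 : ℤ) ≤ (k : ℤ) * N n := by positivity
        linarith
      have e1 : (((k + 1 : ℕ) : ℤ) + 1) * N n = c + N n := by
        rw [hc]
        push_cast
        ring
      rw [e1]
      have hLS := LS_trl (c := c) (by omega) (by omega) hE
      have hLS' := LS_trl (c := c) (by omega) (by omega) hE'
      obtain ⟨m', M', j1, j2, j3, j4, j5⟩ := (h n _ _ _ _ hn hLS hLS').2 m M (by linarith) i2 (by
        intro S G hS hG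
        have k1 := i4 ((trl (-c) 0).ψ ⁻¹' S) ((trl (-c) 0).inv.mp G)
          (by have := RtV_pre (c := c) hS; rwa [zero_add] at this)
          (by have := Rt_pre (c := c) hG; rwa [zero_add] at this)
        rw [← U_mp (trl (-c) 0) (E ∪ SE n 0 c), ← U_mp (trl (-c) 0) (E' ∪ SE n 0 c), mp_inv,
          Set.image_preimage_eq _ (trl (-c) 0).ψ.surjective] at k1
        exact k1)
      refine ⟨m', M', i1.trans j1, j2, ?_, ?_⟩
      · refine j4.trans ?_
        rw [pow_succ']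
        have : 0 ≤ 1 - d := by linarith
        calc (1 - d) * (M - m) ≤ (1 - d) * ((1 - d) ^ k * ((1 / d - 1) * m0)) :=
              mul_le_mul_of_nonneg_left i3 this
          _ = _ := by ring
      · intro S F hS hF
        have k1 := j5 ((trl (-c) 0).ψ '' S) ((trl (-c) 0).mp F) (RtV_im hS) (Rt_im hF)
        have e2 : ∀ E : Finset Edg, (trl (-c) 0).mp (E ∪ SE n 0 c) ∪ SE n 0 (N n) =
            (trl (-c) 0).mp (E ∪ SE n 0 (c + N n)) := by
          intro E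
          have e3 : SE n 0 (N n) = (trl (-c) 0).mp (SE n c (c + N n)) := by
            rw [SE_trl]
            congr 1 <;> ring
          rw [e3, ← mp_union, Finset.union_assoc, SE_union (by omega) (by omega)]
        rw [e2, e2, U_mp, U_mp] at k1
        exact k1
  intro k
  obtain ⟨m, M, i1, i2, i3, i4⟩ := key k
  refine ⟨m, M, by linarith, i2, ?_, i4⟩
  have h1 : (1 / d - 1) * m0 ≤ 1 / d * m := by
    have h2 : 0 < 1 / d := by positivity
    nlinarith
  have h3 : 0 ≤ (1 - d) ^ k := pow_nonneg (by linarith) k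
  have h4 := mul_le_mul_of_nonneg_left h1 h3
  have h5 : (1 + (1 - d) ^ k / d) * m = m + (1 - d) ^ k * (1 / d * m) := by ring
  rw [h5]
  linarith

end Pool.Agent.Y550.LR.Iter
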