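import Pool.Agent.Y197.LR.Stm

/-!
Project LR (helper197), part P3 (helper550): lower bound for the second half of the decomposition.
-/

set_option autoImplicit false

namespace Pool.Agent.Y550.LR.P3

open H974 Finset
open Pool.Agent.Y197.LR

theorem mem_SE {n a b : ℤ} {e : Edg} : e ∈ SE n a b ↔ a ≤ e.1 ∧ e.1 < b ∧ InS n e := by
  obtain ⟨x, y, _ | _⟩ := e
  · unfold SE InS
    rw [Finset.mem_filter, mem_RE_false]
    simp only [tgt_false]
    omega
  · unfold SE InS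
    rw [Finset.mem_filter, mem_RE_true]
    simp only [tgt_true]
    omega

theorem okh : Ok hf := by
  have h := okq (q := (1 / 2 : ℝ)) (by norm_num) (by norm_num)
  exact h

theorem WW_le {n : ℤ} {F : Finset Edg} {u : Vtx} (h : WW (KK n F) u) : u.1 ≤ n := by
  obtain ⟨e, he, heu⟩ := h
  have := KK_subset n F he
  obtain ⟨x1, y1, _ | _⟩ := e
  · rw [mem_TBE_false] at this
    simp only [src_mk, tgt_false] at heu
    rcases heu with h | h <;> (rw [← h]; simp only; omega)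
  · rw [mem_TBE_true] at this
    simp only [src_mk, tgt_true] at heu
    rcases heu with h | h <;> (rw [← h]; simp only; omega)

/-- The end points of an edge of the strip. -/
theorem ends {n : ℤ} {e : Edg} (h : InS n e) :
    (0 ≤ (src e).2 ∧ (src e).2 ≤ n) ∧ (0 ≤ (tgt e).2 ∧ (tgt e).2 ≤ n) ∧
      ((tgt e).1 = (src e).1 ∨ (tgt e).1 = (src e).1 + 1) := by
  obtain ⟨x, y, _ | _⟩ := e
  · change 0 ≤ y ∧ y + 1 ≤ n at h
    change (0 ≤ y ∧ y ≤ n) ∧ (0 ≤ y + 1 ∧ y + 1 ≤ n) ∧ (x = x ∨ x = x + 1)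
    omega
  · change 0 ≤ y ∧ y ≤ n at h
    change (0 ≤ y ∧ y ≤ n) ∧ (0 ≤ y ∧ y ≤ n) ∧ (x + 1 = x ∨ x + 1 = x + 1)
    omega

theorem far_prop {n : ℤ} (hn : 0 < n) {F : Finset Edg} {v : Vtx} (h : Far n (KK n F) v) :
    1 ≤ v.1 ∧ 0 ≤ v.2 ∧ v.2 ≤ n ∧ ¬ WW (KK n F) v := by
  obtain ⟨u, hu, hr⟩ := h
  induction hr with
  | refl =>
    obtain ⟨h1, h2, h3⟩ := hu
    refine ⟨by omega, h2, h3, fun h => ?_⟩
    have := WW_le h
    omega
  | @tail w w' _ hs ih =>
    obtain ⟨i1, i2, i3, i4⟩ := ih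
    obtain ⟨e, ⟨h1, h2, h3⟩, hc⟩ := hs
    obtain ⟨k1, k2, k3⟩ := ends h1
    have key : ∀ x : Vtx, 0 ≤ x.2 → x.2 ≤ n → 0 ≤ x.1 → ¬ WW (KK n F) x → 1 ≤ x.1 := by
      intro x hx1 hx2 hx3 hx4
      by_contra hcon
      apply hx4
      have hx : x = (0, x.2) := by
        ext
        · simp only; omega
        · rfl
      rw [hx]
      exact KK_col hn F _ hx1 hx2
    rcases hc with ⟨c1, c2⟩ | ⟨c1, c2⟩
    · rw [c1] at h2 k1 k3
      rw [c2] at h3 k2 k3
      exact ⟨key w' k2.1 k2.2 (by omega) h3, k2.1, k2.2, h3⟩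
    · rw [c1] at h2 k1 k3
      rw [c2] at h3 k2 k3
      exact ⟨key w' k1.1 k1.2 (by omega) h2, k1.1, k1.2, h2⟩

theorem far_step {n : ℤ} {K : Finset Edg} {w v : Vtx} (hw : Far n K w) (hww : ¬ WW K w)
    (h : Adj {e | InS n e} w v) (hv : ¬ WW K v) : Far n K v := by
  obtain ⟨u, hu, hr⟩ := hw
  refine ⟨u, hu, hr.trans (Adj.reach ?_)⟩
  obtain ⟨e, he, hc⟩ := h
  refine ⟨e, ⟨he, ?_⟩, hc⟩
  rcases hc with ⟨c1, c2⟩ | ⟨c1, c2⟩
  · rw [c1, c2]; exact ⟨hww, hv⟩
  · rw [c1, c2]; exact ⟨hv, hww⟩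

theorem Cn_mono {S T : Set Vtx} {F G : Finset Edg} (h : F ⊆ G) (hF : Cn S T F) : Cn S T G := by
  obtain ⟨s, hs, t, ht, hr⟩ := hF
  exact ⟨s, hs, t, ht, hr.mono (by exact_mod_cast h)⟩

open Classical in
/-- The deterministic part. -/
theorem det {n : ℤ} (hn : 1 ≤ n) {E : Finset Edg} {T : Set Vtx} (hE : LS n 0 E T)
    {ζ : Finset Edg} (hζ : ζ ⊆ SE n 0 (N n) ∪ E) (h1 : TBc 0 n 0 n ζ) (h2 : TBc (-n) 0 0 n ζ)
    (h3 : LRc (-n) n 0 n ζ) (h4 : Cn (col n 0) T (ζ ∩ E)) :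
    good n (ζ ∩ SE n 0 (N n)) ∧ Cn (Bd n (KK n (ζ ∩ SE n 0 (N n)))) T
      ((ζ ∩ SE n 0 (N n)).filter (fun e => ¬ EA n (KK n (ζ ∩ SE n 0 (N n))) e) ∪ (ζ ∩ E)) := by
  have hn0 : 0 < n := by omega
  have hN : n < N n := by unfold N; omega
  constructor
  · apply good_of_TBc hn0
    rw [← TBc_local]
    · exact h1
    · rintro ⟨x, y, _ | _⟩ he
      · rw [mem_TBE_false] at he
        rw [mem_SE]
        unfold InS
        simp only [tgt_false]
        omega
      · rw [mem_TBE_true] at he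
        rw [mem_SE]
        unfold InS
        simp only [tgt_true]
        omega
  set K := KK n (ζ ∩ SE n 0 (N n)) with hK
  obtain ⟨s, hs, t, ht, hr⟩ := h4
  obtain ⟨x, x', hx, hx', hV⟩ := h2
  obtain ⟨y1, y2, hy1, hy2, hH⟩ := h3
  obtain ⟨A, hAn, hA0⟩ : ∃ A : ℤ, A ≤ -n ∧ ∀ e ∈ E, A ≤ e.1 := by
    obtain ⟨A0, hA0⟩ := (insert n (E.image (fun e => -e.1))).exists_le
    refine ⟨-A0, neg_le_neg (hA0 _ (Finset.mem_insert_self _ _)), fun e he => ?_⟩
    have := hA0 (-e.1) (Finset.mem_insert_of_mem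
      (Finset.mem_image_of_mem (fun e : Edg => -e.1) he))
    omega
  have ht1 := hE.tgt t ht
  have hInS : ∀ e ∈ ζ, InS n e := by
    intro e he
    rcases Finset.mem_union.1 (hζ he) with h | h
    · exact (mem_SE.1 h).2.2
    · exact (hE.lt e h).2
  have hV' : Reach (↑ζ ∩ ↑(RE (-n) 0 0 n)) (x, 0) (x', n) :=
    hV.mono (Set.inter_subset_inter_right _ (by exact_mod_cast TBE_subset_RE))
  have hH' : Reach (↑ζ ∩ ↑(RE (-n) n 0 n)) (-n, y1) (n, y2) :=
    hH.mono (Set.inter_subset_inter_right _ (by exact_mod_cast LRE_subset_RE))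
  have hT' : Reach (↑ζ ∩ ↑(RE (A) 0 0 n)) t s := by
    refine hr.symm.mono ?_
    intro e he
    rw [Finset.mem_coe, Finset.mem_inter] at he
    refine ⟨he.1, ?_⟩
    have i1 := hE.lt e he.2
    have i2 := hA0 e he.2
    rw [Finset.mem_coe]
    obtain ⟨x, y, _ | _⟩ := e
    · rw [mem_RE_false]
      unfold InS at i1
      simp only [tgt_false] at i1 i2
      omega
    · rw [mem_RE_true]
      unfold InS at i1
      simp only [tgt_true] at i1 i2
      omega
  have m1 := cross_meet (F := (ζ : Set Edg)) (A := A) (B := 0) (C := 0) (D := n)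
    (a := -n) (b := 0) (c := 0) (d := n) (by omega) (by omega) le_rfl le_rfl (by omega) le_rfl
    hT' (by omega) (by rw [hs.1]) hV' le_rfl le_rfl
  have m2 := cross_meet (F := (ζ : Set Edg)) (A := -n) (B := n) (C := 0) (D := n)
    (a := -n) (b := 0) (c := 0) (d := n) le_rfl (by omega) (by omega) le_rfl (by omega) le_rfl
    hH' le_rfl (by simp only; omega) hV' le_rfl le_rfl
  have m3 : Reach (ζ : Set Edg) t (n, y2) :=
    (m1.mono Set.inter_subset_left).trans
      ((m2.symm.mono Set.inter_subset_left).trans (hH'.mono Set.inter_subset_left))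
  obtain ⟨G, hG⟩ : ∃ G : Set Edg, G = insert ((n, y2, true) : Edg) (ζ : Set Edg) := ⟨_, rfl⟩
  have m4 : Reach G t (n + 1, y2) := by
    refine (m3.mono (by rw [hG]; exact Set.subset_insert _ _)).trans (Adj.reach ?_)
    exact ⟨(n, y2, true), by rw [hG]; exact Set.mem_insert _ _, Or.inl ⟨rfl, rfl⟩⟩
  have hGS : ∀ e ∈ G, InS n e := by
    intro e he
    rw [hG] at he
    rcases he with rfl | he
    · unfold InS
      simp only [tgt_true]
      omega
    · exact hInS e he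
  have hfar : Far n K (n + 1, y2) := ⟨(n + 1, y2), ⟨rfl, hy2.1, hy2.2⟩, Reach.refl _ _⟩
  have htfar : ¬ Far n K t := by
    intro h
    have := (far_prop hn0 h).1
    omega
  obtain ⟨v', w', f1, f2, f3, f4⟩ := first_hit (T := Far n K) m4 htfar hfar
  have hadj : Adj {e | InS n e} w' v' := f3.symm.mono hGS
  have hww := (far_prop hn0 f4).2.2.2
  have hv : WW K v' := by
    by_contra hcon
    exact f2 (far_step f4 hww hadj hcon)
  refine ⟨v', ⟨hv, w', f4, hadj⟩, t, ht, ?_⟩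
  refine f1.symm.mono ?_
  rintro e ⟨he1, he2, he3⟩
  rw [hG] at he1
  rcases he1 with rfl | he1
  · exact absurd hfar he3
  rw [Finset.mem_coe] at he1
  rw [Finset.mem_coe, Finset.mem_union, Finset.mem_filter, Finset.mem_inter, Finset.mem_inter]
  rcases Finset.mem_union.1 (hζ he1) with h | h
  · exact Or.inl ⟨⟨he1, h⟩, fun h => h.elim he2 he3⟩
  · exact Or.inr ⟨he1, h⟩

open Classical in
theorem main (h : S_RSW) : S_P3 := by
  obtain ⟨κ, hκ, hR⟩ := h
  refine ⟨1 / 2 * (1 / 2 * κ), by positivity, ?_⟩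
  intro n E T hn hE
  have hn0 : 0 < n := by omega
  have hN : n < N n := by unfold N; omega
  obtain ⟨S, hS⟩ : ∃ S, S = SE n 0 (N n) ∪ E := ⟨_, rfl⟩
  have hdisj : Disjoint (SE n 0 (N n)) E := by
    rw [Finset.disjoint_left]
    intro e he he'
    have h1 := (mem_SE.1 he).1
    have h2 := (hE.lt e he').1
    omega
  have sub1 : TBE 0 n 0 n ⊆ S := by
    rw [hS]
    rintro ⟨x, y, _ | _⟩ he
    · rw [mem_TBE_false] at he
      rw [Finset.mem_union, mem_SE]
      left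
      unfold InS
      simp only [tgt_false]
      omega
    · rw [mem_TBE_true] at he
      rw [Finset.mem_union, mem_SE]
      left
      unfold InS
      simp only [tgt_true]
      omega
  have hmem : ∀ e : Edg, -n ≤ e.1 → e.1 < N n → InS n e → e ∈ S := by
    intro e h1 h2 h3
    rw [hS, Finset.mem_union]
    by_cases h0 : 0 ≤ e.1
    · exact Or.inl (mem_SE.2 ⟨h0, h2, h3⟩)
    · exact Or.inr (hE.sub (mem_SE.2 ⟨by omega, by omega, h3⟩))
  have sub2 : TBE (-n) 0 0 n ⊆ S := by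
    rintro ⟨x, y, _ | _⟩ he
    · rw [mem_TBE_false] at he
      refine hmem _ (by simp only; omega) (by simp only; omega) ?_
      unfold InS
      simp only [tgt_false]
      omega
    · rw [mem_TBE_true] at he
      refine hmem _ (by simp only; omega) (by simp only; omega) ?_
      unfold InS
      simp only [tgt_true]
      omega
  have sub3 : LRE (-n) n 0 n ⊆ S := by
    rintro ⟨x, y, _ | _⟩ he
    · rw [mem_LRE_false] at he
      refine hmem _ (by simp only; omega) (by simp only; omega) ?_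
      unfold InS
      simp only [tgt_false]
      omega
    · rw [mem_LRE_true] at he
      refine hmem _ (by simp only; omega) (by simp only; omega) ?_
      unfold InS
      simp only [tgt_true]
      omega
  have p1 : 1 / 2 ≤ Pr hf S (TBc 0 n 0 n) := by
    have := pr_TBc (1 / 2) sub1
    rw [sub_zero] at this
    exact (hh_square n hn0).trans (le_of_eq this.symm)
  have p2 : 1 / 2 ≤ Pr hf S (TBc (-n) 0 0 n) := by
    have := pr_TBc (1 / 2) sub2
    rw [sub_zero, zero_sub, neg_neg] at this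
    exact (hh_square n hn0).trans (le_of_eq this.symm)
  have p3 : κ ≤ Pr hf S (LRc (-n) n 0 n) := by
    have := pr_LRc (1 / 2) sub3
    rw [sub_zero] at this
    exact (hR n (n - -n) hn (by omega) (by omega)).trans (le_of_eq this.symm)
  have p4 : Pr hf S (fun ζ => Cn (col n 0) T (ζ ∩ E)) = bb n E T := by
    unfold bb
    rw [Pr_local (S' := E) (by rw [hS]; exact Finset.subset_union_right)]
    · refine Pr_congr fun F hF => ?_
      rw [Finset.inter_eq_left.2 hF]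
    · intro F _
      rw [Finset.inter_assoc, Finset.inter_self]
  have i4 : IncrE S (fun ζ => Cn (col n 0) T (ζ ∩ E)) := fun F G hFG _ hF =>
    Cn_mono (Finset.inter_subset_inter_right hFG) hF
  have i3 := LRc_incr S (-n) n 0 n
  have i2 := TBc_incr S (-n) 0 0 n
  have i1 := TBc_incr S 0 n 0 n
  have i34 : IncrE S (fun ζ => LRc (-n) n 0 n ζ ∧ Cn (col n 0) T (ζ ∩ E)) :=
    fun F G hFG hG hF => ⟨i3 F G hFG hG hF.1, i4 F G hFG hG hF.2⟩
  have i234 : IncrE S (fun ζ => TBc (-n) 0 0 n ζ ∧ LRc (-n) n 0 n ζ ∧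
      Cn (col n 0) T (ζ ∩ E)) :=
    fun F G hFG hG hF => ⟨i2 F G hFG hG hF.1, i34 F G hFG hG hF.2⟩
  have hbb : 0 ≤ bb n E T := Pr_nonneg okh _ _
  have q3 : κ * bb n E T ≤ Pr hf S (fun ζ => LRc (-n) n 0 n ζ ∧ Cn (col n 0) T (ζ ∩ E)) := by
    rw [← p4]
    exact (mul_le_mul_of_nonneg_right p3 (Pr_nonneg okh _ _)).trans (Pr_harris okh i3 i4)
  have q2 : 1 / 2 * (κ * bb n E T) ≤ Pr hf S (fun ζ => TBc (-n) 0 0 n ζ ∧ LRc (-n) n 0 n ζ ∧
      Cn (col n 0) T (ζ ∩ E)) :=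
    (mul_le_mul p2 q3 (by positivity) (Pr_nonneg okh _ _)).trans (Pr_harris okh i2 i34)
  have q1 : 1 / 2 * (1 / 2 * (κ * bb n E T)) ≤ Pr hf S (fun ζ => TBc 0 n 0 n ζ ∧
      TBc (-n) 0 0 n ζ ∧ LRc (-n) n 0 n ζ ∧ Cn (col n 0) T (ζ ∩ E)) :=
    (mul_le_mul p1 q2 (by positivity) (Pr_nonneg okh _ _)).trans (Pr_harris okh i1 i234)
  have hfin : Pr hf S (fun ζ => TBc 0 n 0 n ζ ∧
      TBc (-n) 0 0 n ζ ∧ LRc (-n) n 0 n ζ ∧ Cn (col n 0) T (ζ ∩ E)) ≤ Ub n E T := by
    unfold Ub Pr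
    rw [hS, Ex_union hdisj]
    refine Ex_mono okh fun ω hω => ?_
    have hmul : ind (good n ω) * U E T (Bd n (KK n ω)) (ω.filter fun e => ¬ EA n (KK n ω) e) =
        Ex hf E (fun η => ind (good n ω) *
          ind (Cn (Bd n (KK n ω)) T ((ω.filter fun e => ¬ EA n (KK n ω) e) ∪ η))) := by
      rw [Ex_mul_left]
      rfl
    rw [hmul]
    refine Ex_mono okh fun η hη => ?_
    rw [← ind_and]
    refine ind_mono ?_
    rintro ⟨h1, h2, h3, h4⟩
    have e1 : (ω ∪ η) ∩ SE n 0 (N n) = ω := by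
      ext e
      rw [Finset.mem_inter, Finset.mem_union]
      constructor
      · rintro ⟨h | h, h'⟩
        · exact h
        · exact absurd (hη h) (Finset.disjoint_left.1 hdisj h')
      · intro h
        exact ⟨Or.inl h, hω h⟩
    have e2 : (ω ∪ η) ∩ E = η := by
      ext e
      rw [Finset.mem_inter, Finset.mem_union]
      constructor
      · rintro ⟨h | h, h'⟩
        · exact absurd h' (Finset.disjoint_left.1 hdisj (hω h))
        · exact h
      · intro h
        exact ⟨Or.inr h, hη h⟩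
    have := det hn hE (ζ := ω ∪ η) (Finset.union_subset_union hω hη) h1 h2 h3 h4
    rw [e1, e2] at this
    exact this
  refine le_trans (le_of_eq ?_) (q1.trans hfin)
  ring

end Pool.Agent.Y550.LR.P3
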